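import Pool.Agent.Y706.BI.Stm2

/-!
# Points of bounded degree: from rational points over finite extensions
-/

set_option autoImplicit false

namespace Pool.Agent.Y31.BI

open Pool.Agent.W277.UH Pool.Agent.Y706.BI Polynomial

universe u v w

section forms

variable {F : Type*} [Field F]

/-- no common zeros -/
lemma hev_nz {d : ℕ} {p q : F[X]} (hp : p.natDegree ≤ d) (hq : q.natDegree ≤ d)
    (hco : IsCoprime p q) (ht : p.coeff d ≠ 0 ∨ q.coeff d ≠ 0) (X : F × F)
    (h1 : hev d p X = 0) (h2 : hev d q X = 0) : X.1 ^ d = 0 ∧ X.2 = 0 := by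
  by_cases hX2 : X.2 = 0
  · have hX' : X = (X.1, 0) := Prod.ext rfl hX2
    rw [hX', hev_zero] at h1 h2
    rcases ht with ht | ht
    · exact ⟨(mul_eq_zero.mp h1).resolve_left ht, hX2⟩
    · exact ⟨(mul_eq_zero.mp h2).resolve_left ht, hX2⟩
  · rw [hev_eval d p hp X hX2] at h1
    rw [hev_eval d q hq X hX2] at h2
    have e1 := (mul_eq_zero.mp h1).resolve_left (pow_ne_zero _ hX2)
    have e2 := (mul_eq_zero.mp h2).resolve_left (pow_ne_zero _ hX2)
    obtain ⟨a, b, hab⟩ := hco
    have := congrArg (Polynomial.eval (X.1 / X.2)) hab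
    simp [e1, e2] at this

/-- the forms of the iterates -/
noncomputable def itf (d : ℕ) (p q : F[X]) : ℕ → F[X] × F[X]
  | 0 => (X, 1)
  | m + 1 => (hc d p (itf d p q m).1 (itf d p q m).2, hc d q (itf d p q m).1 (itf d p q m).2)

lemma itf_deg (d : ℕ) (p q : F[X]) (m : ℕ) :
    (itf d p q m).1.natDegree ≤ d ^ m ∧ (itf d p q m).2.natDegree ≤ d ^ m := by
  induction m with
  | zero => simp [itf]
  | succ m ih =>
    rw [pow_succ, mul_comm]
    exact ⟨hc_degree _ _ _ _ _ ih.1 ih.2, hc_degree _ _ _ _ _ ih.1 ih.2⟩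

variable {d : ℕ} {p q : F[X]}

lemma itf_top (hd : d ≠ 0) (hp : p.natDegree ≤ d) (hq : q.natDegree ≤ d)
    (hco : IsCoprime p q) (ht : p.coeff d ≠ 0 ∨ q.coeff d ≠ 0) (m : ℕ) :
    (itf d p q m).1.coeff (d ^ m) ≠ 0 ∨ (itf d p q m).2.coeff (d ^ m) ≠ 0 := by
  induction m with
  | zero => left; simp [itf]
  | succ m ih =>
    by_contra h
    push Not at h
    obtain ⟨h1, h2⟩ := h
    have e : d ^ (m + 1) = d * d ^ m := by rw [pow_succ, mul_comm]
    rw [e] at h1 h2
    change (hc d p (itf d p q m).1 (itf d p q m).2).coeff (d * d ^ m) = 0 at h1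
    change (hc d q (itf d p q m).1 (itf d p q m).2).coeff (d * d ^ m) = 0 at h2
    rw [hc_coeff _ _ _ _ _ (itf_deg d p q m).1 (itf_deg d p q m).2] at h1 h2
    obtain ⟨h3, h4⟩ := hev_nz hp hq hco ht _ h1 h2
    rcases ih with ih | ih
    · exact ih (pow_eq_zero_iff hd |>.mp h3)
    · exact ih h4

lemma itf_nz (hd : d ≠ 0) (hp : p.natDegree ≤ d) (hq : q.natDegree ≤ d)
    (hco : IsCoprime p q) (ht : p.coeff d ≠ 0 ∨ q.coeff d ≠ 0) (m : ℕ) (x : F)
    (h1 : (itf d p q m).1.eval x = 0) : (itf d p q m).2.eval x ≠ 0 := by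
  induction m with
  | zero => simp [itf]
  | succ m ih =>
    intro h2
    change (hc d p (itf d p q m).1 (itf d p q m).2).eval x = 0 at h1
    change (hc d q (itf d p q m).1 (itf d p q m).2).eval x = 0 at h2
    rw [hc_eval] at h1 h2
    obtain ⟨h3, h4⟩ := hev_nz hp hq hco ht _ h1 h2
    exact ih (pow_eq_zero_iff hd |>.mp h3) h4

/-- the point of the line with given homogeneous coordinates -/
noncomputable def pt (a b : F) : Option F := by
  classical exact if b = 0 then none else some (a / b)

lemma pt_zero (a : F) : pt a (0 : F) = none := by unfold pt; exact if_pos rfl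

lemma pt_ne {a b : F} (h : b ≠ 0) : pt a b = some (a / b) := by unfold pt; exact if_neg h

lemma ratP1_pt (hp : p.natDegree ≤ d) (hq : q.natDegree ≤ d) (a b : F) (hab : b = 0 → a ≠ 0) :
    ratP1 p q d (pt a b) = pt (hev d p (a, b)) (hev d q (a, b)) := by
  by_cases hb : b = 0
  · subst hb
    rw [pt_zero, hev_zero, hev_zero]
    have ha : a ^ d ≠ 0 := pow_ne_zero _ (hab rfl)
    by_cases h : q.coeff d = 0
    · rw [ratP1_none0 _ _ _ h, h, zero_mul, pt_zero]
    · rw [ratP1_none _ _ _ h, pt_ne (mul_ne_zero h ha), mul_div_mul_right _ _ ha]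
  · rw [pt_ne hb, hev_eval d p hp (a, b) hb, hev_eval d q hq (a, b) hb]
    have ha : b ^ d ≠ 0 := pow_ne_zero _ hb
    by_cases h : q.eval (a / b) = 0
    · rw [ratP1_some0 _ _ _ _ h]
      simp only [h, mul_zero]
      rw [pt_zero]
    · rw [ratP1_some _ _ _ _ h, pt_ne (mul_ne_zero ha h), mul_div_mul_left _ _ ha]

lemma iter_pt (hd : d ≠ 0) (hp : p.natDegree ≤ d) (hq : q.natDegree ≤ d)
    (hco : IsCoprime p q) (ht : p.coeff d ≠ 0 ∨ q.coeff d ≠ 0) (m : ℕ) (x : F) :
    (ratP1 p q d)^[m] (some x) = pt ((itf d p q m).1.eval x) ((itf d p q m).2.eval x) := by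
  induction m with
  | zero => simp [itf, pt]
  | succ m ih =>
    rw [Function.iterate_succ_apply', ih, ratP1_pt hp hq _ _ fun h1 h2 =>
      itf_nz hd hp hq hco ht m x h2 h1]
    show _ = pt ((hc d p (itf d p q m).1 (itf d p q m).2).eval x)
      ((hc d q (itf d p q m).1 (itf d p q m).2).eval x)
    rw [hc_eval, hc_eval]

lemma pt_eq {a b a' b' : F} (h : pt a b = pt a' b') : a * b' - b * a' = 0 := by
  by_cases hb : b = 0
  · subst hb
    by_cases hb' : b' = 0
    · subst hb'; ring
    · rw [pt_zero, pt_ne hb'] at h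
      exact absurd h (by simp)
  · by_cases hb' : b' = 0
    · subst hb'
      rw [pt_zero, pt_ne hb] at h
      exact absurd h (by simp)
    · rw [pt_ne hb, pt_ne hb', Option.some.injEq, div_eq_div_iff hb hb'] at h
      rw [h]; ring

lemma itf_coprime (hd : d ≠ 0) (hp : p.natDegree ≤ d) (hq : q.natDegree ≤ d)
    (hco : IsCoprime p q) (ht : p.coeff d ≠ 0 ∨ q.coeff d ≠ 0) [IsAlgClosed F] (m : ℕ) :
    IsCoprime (itf d p q m).1 (itf d p q m).2 := by
  refine (isCoprime_iff_aeval_ne_zero_of_isAlgClosed (k := F) F _ _).mpr ?_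
  intro x
  by_contra hcon
  push Not at hcon
  obtain ⟨h1, h2⟩ := hcon
  rw [coe_aeval_eq_eval] at h1 h2
  exact itf_nz hd hp hq hco ht m x h1 h2

/-- coincidences of iterates -/
lemma coin (hd : 2 ≤ d) (hp : p.natDegree ≤ d) (hq : q.natDegree ≤ d)
    (hco : IsCoprime p q) (ht : p.coeff d ≠ 0 ∨ q.coeff d ≠ 0) [IsAlgClosed F] {a b : ℕ}
    (hab : b < a) :
    {z : Option F | (ratP1 p q d)^[a] z = (ratP1 p q d)^[b] z}.encard ≤
      ((2 * d ^ a + 1 : ℕ) : ℕ∞) := by
  classical
  have hd0 : d ≠ 0 := by omega
  obtain ⟨ha1, ha2⟩ := itf_deg d p q a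
  obtain ⟨hb1, hb2⟩ := itf_deg d p q b
  set R := (itf d p q a).1 * (itf d p q b).2 - (itf d p q a).2 * (itf d p q b).1 with hR
  have hlt : d ^ b < d ^ a := Nat.pow_lt_pow_right (by omega) hab
  have hR0 : R ≠ 0 := by
    intro h0
    have h1 : (itf d p q a).1 * (itf d p q b).2 = (itf d p q a).2 * (itf d p q b).1 :=
      sub_eq_zero.mp h0
    have hca := itf_coprime hd0 hp hq hco ht a
    have hcb := itf_coprime hd0 hp hq hco ht b
    have d1 : (itf d p q a).1 ∣ (itf d p q b).1 :=
      hca.dvd_of_dvd_mul_left (Dvd.intro _ h1)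
    have d2 : (itf d p q a).2 ∣ (itf d p q b).2 :=
      hca.symm.dvd_of_dvd_mul_left (Dvd.intro _ h1.symm)
    have key : ∀ A B : F[X], A.coeff (d ^ a) ≠ 0 → B.natDegree ≤ d ^ b → A ∣ B → B = 0 := by
      intro A B hA hB hAB
      by_contra hB0
      have h2 := natDegree_le_of_dvd hAB hB0
      have h3 := le_natDegree_of_ne_zero hA
      omega
    rcases itf_top hd0 hp hq hco ht a with h2 | h2
    · have h3 := key _ _ h2 hb1 d1
      rw [h3, mul_zero] at h1
      have h4 : (itf d p q a).1 ≠ 0 := fun h => h2 (by rw [h, coeff_zero])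
      have h5 := (mul_eq_zero.mp h1).resolve_left h4
      rw [h3, h5] at hcb
      exact not_isCoprime_zero_zero hcb
    · have h3 := key _ _ h2 hb2 d2
      rw [h3, mul_zero] at h1
      have h4 : (itf d p q a).2 ≠ 0 := fun h => h2 (by rw [h, coeff_zero])
      have h5 := (mul_eq_zero.mp h1.symm).resolve_left h4
      rw [h3, h5] at hcb
      exact not_isCoprime_zero_zero hcb
  have hRd : R.natDegree ≤ 2 * d ^ a := by
    refine (natDegree_sub_le _ _).trans (max_le ?_ ?_)
    · refine natDegree_mul_le.trans ?_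
      omega
    · refine natDegree_mul_le.trans ?_
      omega
  have hsub : {z : Option F | (ratP1 p q d)^[a] z = (ratP1 p q d)^[b] z} ⊆
      ((insert none (R.roots.toFinset.image some) : Finset (Option F)) : Set (Option F)) := by
    intro z hz
    rw [Finset.mem_coe]
    cases z with
    | none => exact Finset.mem_insert_self _ _
    | some x =>
      apply Finset.mem_insert_of_mem
      rw [Finset.mem_image]
      refine ⟨x, ?_, rfl⟩
      rw [Multiset.mem_toFinset, mem_roots hR0, IsRoot.def]
      have h1 : (ratP1 p q d)^[a] (some x) = (ratP1 p q d)^[b] (some x) := hz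
      rw [iter_pt hd0 hp hq hco ht, iter_pt hd0 hp hq hco ht] at h1
      have h2 := pt_eq h1
      rw [hR, eval_sub, eval_mul, eval_mul]
      exact h2
  refine (Set.encard_le_encard hsub).trans ?_
  rw [Set.encard_coe_eq_coe_finsetCard]
  have h1 : (insert none (R.roots.toFinset.image some) : Finset (Option F)).card ≤
      2 * d ^ a + 1 := by
    refine (Finset.card_insert_le _ _).trans (Nat.add_le_add_right ?_ _)
    refine Finset.card_image_le.trans ((Multiset.toFinset_card_le _).trans ?_)
    exact (card_roots' R).trans hRd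
  exact_mod_cast h1

end forms

section maps

variable {K : Type u} {L : Type v} [Field K] [Field L]

lemma ratP1_map (T : K →+* L) (p q : Polynomial K) (d : ℕ) (z : Option K) :
    ratP1 (p.map T) (q.map T) d (z.map T) = (ratP1 p q d z).map T := by
  cases z with
  | none =>
    by_cases h : q.coeff d = 0
    · rw [ratP1_none0 p q d h]
      show ratP1 (p.map T) (q.map T) d none = none
      rw [ratP1_none0]
      rw [Polynomial.coeff_map, h, map_zero]
    · rw [ratP1_none p q d h]
      show ratP1 (p.map T) (q.map T) d none = some _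
      rw [ratP1_none]
      · rw [Polynomial.coeff_map, Polynomial.coeff_map, map_div₀]
      · rw [Polynomial.coeff_map]
        exact (map_ne_zero T).2 h
  | some x =>
    have hx : ∀ g : Polynomial K, (g.map T).eval (T x) = T (g.eval x) := fun g => by
      rw [Polynomial.eval_map, Polynomial.eval₂_hom]
    by_cases h : q.eval x = 0
    · rw [ratP1_some0 p q d x h]
      show ratP1 (p.map T) (q.map T) d (some (T x)) = none
      rw [ratP1_some0]
      rw [hx, h, map_zero]
    · rw [ratP1_some p q d x h]
      show ratP1 (p.map T) (q.map T) d (some (T x)) = some _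
      rw [ratP1_some]
      · rw [hx, hx, map_div₀]
      · rw [hx]
        exact (map_ne_zero T).2 h

lemma ratP1_iter_map (T : K →+* L) (p q : Polynomial K) (d : ℕ) (z : Option K) (m : ℕ) :
    (ratP1 (p.map T) (q.map T) d)^[m] (z.map T) = ((ratP1 p q d)^[m] z).map T := by
  induction m with
  | zero => rfl
  | succ m ih => rw [Function.iterate_succ_apply', ih, ratP1_map, Function.iterate_succ_apply']

lemma pre_map (T : K →+* L) (p q : Polynomial K) (d : ℕ) (z : Option K)
    (h : (Set.range fun m : ℕ => (ratP1 (p.map T) (q.map T) d)^[m] (z.map T)).Finite) :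
    (Set.range fun m : ℕ => (ratP1 p q d)^[m] z).Finite := by
  refine Set.Finite.of_finite_image (f := Option.map T) (h.subset ?_)
    (Option.map_injective T.injective).injOn
  rintro _ ⟨_, ⟨m, rfl⟩, rfl⟩
  exact ⟨m, ratP1_iter_map T p q d z m⟩

/-- the property `IsoAlg` is preserved by extensions -/
lemma isoAlg_map {k : Type w} [Field k] [Algebra k K] [Algebra k L] (T : K →ₐ[k] L) {p q : K[X]}
    {d : ℕ} (h : IsoAlg k p q d) : IsoAlg k (p.map (T : K →+* L)) (q.map (T : K →+* L)) d := by
  obtain ⟨a, b, c, e, hdet, u, w, huw, hu, hw, hua, hwa, hid⟩ := h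
  refine ⟨T a, T b, T c, T e, ?_, u.map (T : K →+* L), w.map (T : K →+* L), ?_,
    natDegree_map_le.trans hu, natDegree_map_le.trans hw, ?_, ?_, ?_⟩
  · rw [← map_mul, ← map_mul, ← map_sub]
    exact (map_ne_zero T).2 hdet
  · rcases huw with h | h
    · exact Or.inl ((Polynomial.map_ne_zero_iff (T : K →+* L).injective).2 h)
    · exact Or.inr ((Polynomial.map_ne_zero_iff (T : K →+* L).injective).2 h)
  · intro n
    rw [coeff_map]
    exact (hua n).algHom T
  · intro n
    rw [coeff_map]
    exact (hwa n).algHom T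
  · have := congrArg (Polynomial.map (T : K →+* L)) hid
    simpa [Polynomial.map_sum] using this

end maps

section orbits

/-- pigeonhole for a set containing the orbit -/
lemma pigeon {A : Type*} (f : A → A) (z : A) (S : Set A) (M : ℕ) (hS : S.encard ≤ (M : ℕ∞))
    (h : ∀ m, f^[m] z ∈ S) : ∃ a b : ℕ, b < a ∧ a ≤ M ∧ f^[a] z = f^[b] z := by
  classical
  by_contra hcon
  push Not at hcon
  have hinj : Set.InjOn (fun m : ℕ => f^[m] z) (Set.Iic M) := by
    intro a ha b hb hab
    rcases lt_trichotomy a b with h1 | h1 | h1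
    · exact absurd hab.symm (hcon b a h1 hb)
    · exact h1
    · exact absurd hab (hcon a b h1 ha)
  have h1 : ((fun m : ℕ => f^[m] z) '' Set.Iic M).encard = ((M + 1 : ℕ) : ℕ∞) := by
    rw [hinj.encard_image]
    have h2 : (Set.Iic M : Set ℕ) = ((Finset.range (M + 1) : Finset ℕ) : Set ℕ) := by
      ext i
      simp
    rw [h2, Set.encard_coe_eq_coe_finsetCard, Finset.card_range]
  have h2 : ((fun m : ℕ => f^[m] z) '' Set.Iic M) ⊆ S := by
    rintro _ ⟨m, _, rfl⟩
    exact h m
  have h3 := (Set.encard_le_encard h2).trans hS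
  rw [h1] at h3
  have h4 : M + 1 ≤ M := by exact_mod_cast h3
  omega

end orbits

section tower

/-- the extension `E` of `L` over the field generated by the image of `t` -/
lemma tower {k : Type v} {L : Type u} [Field k] [Field L] [Algebra k L] (t : L)
    [FiniteDimensional (IntermediateField.adjoin k {t}) L] (E : Type w) [Field E] [Algebra L E]
    [Algebra k E] [IsScalarTower k L E] [FiniteDimensional L E] :
    FiniteDimensional (IntermediateField.adjoin k {algebraMap L E t}) E ∧
    Module.finrank (IntermediateField.adjoin k {algebraMap L E t}) E =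
      Module.finrank (IntermediateField.adjoin k {t}) L * Module.finrank L E := by
  set K := IntermediateField.adjoin k {t} with hK
  set M := IntermediateField.adjoin k {algebraMap L E t} with hM
  have hmap : K.map (IsScalarTower.toAlgHom k L E) = M := by
    rw [hK, IntermediateField.adjoin_map, hM, Set.image_singleton]
    rfl
  let e0 : K ≃ₐ[k] K.map (IsScalarTower.toAlgHom k L E) :=
    IntermediateField.equivMap K (IsScalarTower.toAlgHom k L E)
  let e1 : K.map (IsScalarTower.toAlgHom k L E) ≃ₐ[k] M := IntermediateField.equivOfEq hmap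
  let e : K ≃+* M := (e0.trans e1).toRingEquiv
  have hcomm : (algebraMap M E).comp (e : K →+* M) =
      ((RingEquiv.refl E : E ≃+* E) : E →+* E).comp (algebraMap K E) := RingHom.ext fun _ => rfl
  have h0 : Module.Finite K E := Module.Finite.trans L E
  have h1 : Module.Finite M E := Module.Finite.of_equiv_equiv e (RingEquiv.refl E) hcomm
  refine ⟨h1, ?_⟩
  rw [← Algebra.finrank_eq_of_equiv_equiv e (RingEquiv.refl E) hcomm]
  exact (Module.finrank_mul_finrank K L E).symm

end tower

/-- **points of bounded degree** -/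
theorem t_BDG (hFIN : S_FIN.{u, v}) : S_BDG.{u, v} := by
  classical
  obtain ⟨N, hN⟩ := hFIN
  refine ⟨fun n D d => (N (n * (D + 1)) d + 1) * ((N (n * (D + 1)) d + 1) *
    (2 * d ^ N (n * (D + 1)) d + 1)), ?_⟩
  intro k L _ _ _ _ t ht hfd n D d hn hd p q hco hmax hbic hiso
  set M := N (n * (D + 1)) d with hM
  set F := AlgebraicClosure L with hF
  set P := p.map (algebraMap L F) with hP
  set Q := q.map (algebraMap L F) with hQ
  have hPd : P.natDegree ≤ d := by
    rw [hP, natDegree_map]
    exact (le_max_left _ _).trans hmax.le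
  have hQd : Q.natDegree ≤ d := by
    rw [hQ, natDegree_map]
    exact (le_max_right _ _).trans hmax.le
  have hPQ : IsCoprime P Q := hco.map (Polynomial.mapRingHom (algebraMap L F))
  have htop : P.coeff d ≠ 0 ∨ Q.coeff d ≠ 0 := by
    have key : ∀ g : L[X], g.natDegree = d → (g.map (algebraMap L F)).coeff d ≠ 0 := by
      intro g hg
      rw [coeff_map, ← hg]
      refine (_root_.map_ne_zero _).2 ?_
      rw [coeff_natDegree, Ne, leadingCoeff_eq_zero]
      rintro rfl
      rw [natDegree_zero] at hg
      omega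
    rcases le_total p.natDegree q.natDegree with h | h
    · right
      exact key q ((max_eq_right h).symm.trans hmax)
    · left
      exact key p ((max_eq_left h).symm.trans hmax)
  have hmain : ∀ z : Option F, (Set.range fun m : ℕ => (ratP1 P Q d)^[m] z).Finite →
      (∀ x, z = some x → ∃ E : IntermediateField L F, FiniteDimensional L E ∧
        Module.finrank L E ≤ D ∧ x ∈ E) →
      ∃ a b : ℕ, b < a ∧ a ≤ M ∧ (ratP1 P Q d)^[a] z = (ratP1 P Q d)^[b] z := by
    intro z hz1 hz2
    obtain ⟨E, hE1, hE2, y, hy⟩ : ∃ E : IntermediateField L F, FiniteDimensional L E ∧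
        Module.finrank L E ≤ D + 1 ∧ ∃ y : Option E, y.map (algebraMap E F) = z := by
      cases z with
      | none =>
        refine ⟨⊥, inferInstance, ?_, none, rfl⟩
        rw [IntermediateField.finrank_bot]
        omega
      | some x =>
        obtain ⟨E, h1, h2, h3⟩ := hz2 x rfl
        exact ⟨E, h1, by omega, some ⟨x, h3⟩, rfl⟩
    obtain ⟨hT1, hT2⟩ := tower (k := k) t E
    have hkEF : IsScalarTower k E F := IsScalarTower.of_algebraMap_eq fun x => rfl
    have ht' : Transcendental k (algebraMap L E t) :=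
      (transcendental_algebraMap_iff (algebraMap L E).injective).2 ht
    have hmm : ∀ g : L[X], (g.map (algebraMap L E)).map (algebraMap E F) =
        g.map (algebraMap L F) := by
      intro g
      rw [Polynomial.map_map, ← IsScalarTower.algebraMap_eq]
    have hB := hN k E (algebraMap L E t) ht' hT1 (n * (D + 1)) d (by
        rw [hT2]
        exact Nat.mul_le_mul hn hE2) hd (p.map (algebraMap L E)) (q.map (algebraMap L E))
      (hco.map (Polynomial.mapRingHom (algebraMap L E))) (by
        rw [natDegree_map, natDegree_map]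
        exact hmax) (by
        rcases hbic with h | h
        · exact Or.inl h
        · right
          let j : F →ₐ[L] AlgebraicClosure E := IsAlgClosed.lift
          have h1 := h.map (j : F →+* AlgebraicClosure E)
          have h2 : ∀ g : L[X], (g.map (algebraMap L F)).map (j : F →+* AlgebraicClosure E) =
              (g.map (algebraMap L E)).map (algebraMap E (AlgebraicClosure E)) := by
            intro g
            rw [Polynomial.map_map, Polynomial.map_map, ← IsScalarTower.algebraMap_eq]
            congr 1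
            exact j.comp_algebraMap
          rw [h2, h2] at h1
          exact h1) (by
        intro h
        apply hiso
        have h1 := isoAlg_map (IsScalarTower.toAlgHom k E F) h
        have h2 : ((IsScalarTower.toAlgHom k E F : E →ₐ[k] F) : E →+* F) = algebraMap E F := rfl
        rw [h2, hmm, hmm] at h1
        exact h1)
    have hyfin : (Set.range fun m : ℕ => (ratP1 (p.map (algebraMap L E))
        (q.map (algebraMap L E)) d)^[m] y).Finite := by
      apply pre_map (algebraMap E F)
      rw [hmm, hmm, hy]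
      exact hz1
    obtain ⟨a, b, hab, ha, h⟩ := pigeon (ratP1 (p.map (algebraMap L E))
      (q.map (algebraMap L E)) d) y _ M hB (by
        intro m
        show (Set.range fun m' : ℕ => (ratP1 (p.map (algebraMap L E))
          (q.map (algebraMap L E)) d)^[m'] ((ratP1 (p.map (algebraMap L E))
          (q.map (algebraMap L E)) d)^[m] y)).Finite
        refine hyfin.subset ?_
        rintro _ ⟨m', rfl⟩
        exact ⟨m' + m, Function.iterate_add_apply _ _ _ _⟩)
    refine ⟨a, b, hab, ha, ?_⟩
    have h1 := congrArg (Option.map (algebraMap E F)) h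
    rw [← ratP1_iter_map, ← ratP1_iter_map, hmm, hmm, hy] at h1
    exact h1
  have hcov : {z : Option F | (Set.range fun m : ℕ => (ratP1 P Q d)^[m] z).Finite ∧
      ∀ x, z = some x → ∃ E : IntermediateField L F, FiniteDimensional L E ∧
        Module.finrank L E ≤ D ∧ x ∈ E} ⊆ ⋃ a ∈ Finset.range (M + 1), ⋃ b ∈ Finset.range (M + 1),
          {z : Option F | b < a ∧ (ratP1 P Q d)^[a] z = (ratP1 P Q d)^[b] z} := by
    rintro z ⟨hz1, hz2⟩
    obtain ⟨a, b, hab, ha, h⟩ := hmain z hz1 hz2
    simp only [Set.mem_iUnion, Finset.mem_range]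
    exact ⟨a, by omega, b, by omega, hab, h⟩
  have hone : ∀ a ∈ Finset.range (M + 1), ∀ b ∈ Finset.range (M + 1),
      {z : Option F | b < a ∧ (ratP1 P Q d)^[a] z = (ratP1 P Q d)^[b] z}.encard ≤
        ((2 * d ^ M + 1 : ℕ) : ℕ∞) := by
    intro a ha b _
    rw [Finset.mem_range] at ha
    by_cases hab : b < a
    · refine (Set.encard_le_encard ?_).trans ((coin hd hPd hQd hPQ htop hab).trans ?_)
      · exact fun z hz => hz.2
      · have h1 : 2 * d ^ a + 1 ≤ 2 * d ^ M + 1 := by
          have := Nat.pow_le_pow_right (show 0 < d by omega) (show a ≤ M by omega)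
          omega
        exact_mod_cast h1
    · have h1 : {z : Option F | b < a ∧ (ratP1 P Q d)^[a] z = (ratP1 P Q d)^[b] z} = ∅ := by
        ext z
        simp [hab]
      rw [h1, Set.encard_empty]
      exact bot_le
  have hun : ∀ (c : ℕ) (G : ℕ → Set (Option F)), (∀ a ∈ Finset.range (M + 1),
      (G a).encard ≤ (c : ℕ∞)) → (⋃ a ∈ Finset.range (M + 1), G a).encard ≤
        (((M + 1) * c : ℕ) : ℕ∞) := by
    intro c G hG
    have h1 : ∀ s : Finset ℕ, (∀ a ∈ s, (G a).encard ≤ (c : ℕ∞)) →
        (⋃ a ∈ s, G a).encard ≤ ((s.card * c : ℕ) : ℕ∞) := by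
      intro s
      induction s using Finset.induction_on with
      | empty => intro _; simp
      | insert x s hx ih =>
        intro hs
        rw [Finset.set_biUnion_insert, Finset.card_insert_of_notMem hx, add_mul, one_mul]
        refine (Set.encard_union_le _ _).trans ?_
        rw [add_comm]
        push_cast
        gcongr
        · exact_mod_cast ih fun a ha => hs a (Finset.mem_insert_of_mem ha)
        · exact hs x (Finset.mem_insert_self _ _)
    have h2 := h1 (Finset.range (M + 1)) hG
    rwa [Finset.card_range] at h2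
  refine (Set.encard_le_encard hcov).trans (hun _ _ fun a ha => hun _ _ fun b hb => ?_)
  exact hone a ha b hb

end Pool.Agent.Y31.BI
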